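import Pool.Agent.TotReal.Interp

/-!
The sentences `∀ x, x = n → Φ(x)` and the computability of their Goedel numbers.
-/

open FirstOrder Encodable

namespace Pool.Agent.TotReal

/-- the sentence `∀ x, x = n → Φ(x)` -/
def sent (Φ : RL.Formula Unit) (n : ℕ) : RL.Sentence :=
  FirstOrder.Language.BoundedFormula.all
    (FirstOrder.Language.BoundedFormula.imp
      (FirstOrder.Language.BoundedFormula.equal
        (.var (Sum.inr (0 : Fin 1)) : RL.Term (Empty ⊕ Fin 1)) (num n))
      (FirstOrder.Language.BoundedFormula.relabel (n := 1)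
        (fun _ => (Sum.inr (0 : Fin 1) : Empty ⊕ Fin 1)) Φ))

theorem realize_sent {R : Type*} [CommRing R] (Φ : RL.Formula Unit) (n : ℕ) :
    R ⊨ sent Φ n ↔ Φ.Realize (fun _ => (n : R)) := by
  unfold sent FirstOrder.Language.Sentence.Realize FirstOrder.Language.Formula.Realize
  rw [FirstOrder.Language.BoundedFormula.realize_all]
  have key : ∀ x : R, FirstOrder.Language.BoundedFormula.Realize
      (FirstOrder.Language.BoundedFormula.imp
      (FirstOrder.Language.BoundedFormula.equal
        (.var (Sum.inr (0 : Fin 1)) : RL.Term (Empty ⊕ Fin 1)) (num n))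
      (FirstOrder.Language.BoundedFormula.relabel (n := 1)
        (fun _ => (Sum.inr (0 : Fin 1) : Empty ⊕ Fin 1)) Φ)) default (Fin.snoc default x) ↔
      (x = (n : R) → Φ.Realize (fun _ => x)) := by
    intro x
    rw [FirstOrder.Language.BoundedFormula.realize_imp]
    have e1 : FirstOrder.Language.BoundedFormula.Realize (FirstOrder.Language.BoundedFormula.equal
        (.var (Sum.inr (0 : Fin 1)) : RL.Term (Empty ⊕ Fin 1)) (num n))
        (default : Empty → R) (Fin.snoc default x) ↔ x = (n : R) := by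
      change (FirstOrder.Language.Term.realize _ _ : R) = FirstOrder.Language.Term.realize _ _ ↔ _
      rw [realize_num]
      rfl
    have e2 : FirstOrder.Language.BoundedFormula.Realize
        (FirstOrder.Language.BoundedFormula.relabel (n := 1)
        (fun _ => (Sum.inr (0 : Fin 1) : Empty ⊕ Fin 1)) Φ) (default : Empty → R)
        (Fin.snoc default x) ↔ Φ.Realize (fun _ => x) := by
      rw [FirstOrder.Language.BoundedFormula.realize_relabel]
      unfold FirstOrder.Language.Formula.Realize
      have h1 : (Sum.elim (default : Empty → R) ((Fin.snoc default x : Fin (0 + 1) → R) ∘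
          Fin.castAdd 0) ∘ fun _ => (Sum.inr (0 : Fin 1) : Empty ⊕ Fin 1)) =
          (fun _ : Unit => x) := by
        funext u
        rfl
      have h2 : ((Fin.snoc default x : Fin (0 + 1) → R) ∘ Fin.natAdd 1 : Fin 0 → R) = default :=
        Subsingleton.elim _ _
      exact iff_of_eq (congrArg₂ (FirstOrder.Language.BoundedFormula.Realize Φ) h1 h2)
    rw [e1, e2]
  constructor
  · intro h
    exact (key _).1 (h (n : R)) rfl
  · intro h x
    rw [key]
    rintro rfl
    exact h

/-- code of the list of symbols of the numeral of `n` -/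
def numCode (n : ℕ) : ℕ :=
  encode (FirstOrder.Language.Term.listEncode (num n : RL.Term (Empty ⊕ Fin 1)))

theorem numCode_succ : ∃ a b : ℕ, ∀ n, numCode (n + 1) =
    Nat.succ (Nat.pair a (Nat.succ (Nat.pair b (numCode n)))) := by
  refine ⟨encode (Sum.inr ⟨2, RFunc.add⟩ : (Empty ⊕ Fin 1) ⊕ (Σ i, RL.Functions i)),
    encode (Sum.inr ⟨0, RFunc.one⟩ : (Empty ⊕ Fin 1) ⊕ (Σ i, RL.Functions i)), fun n => ?_⟩
  have h : FirstOrder.Language.Term.listEncode (num (n + 1) : RL.Term (Empty ⊕ Fin 1)) =
      (Sum.inr ⟨2, RFunc.add⟩ : (Empty ⊕ Fin 1) ⊕ (Σ i, RL.Functions i)) ::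
      (Sum.inr ⟨0, RFunc.one⟩ : (Empty ⊕ Fin 1) ⊕ (Σ i, RL.Functions i)) ::
      FirstOrder.Language.Term.listEncode (num n : RL.Term (Empty ⊕ Fin 1)) := by
    change FirstOrder.Language.Term.listEncode (tAdd tOne (num n) : RL.Term (Empty ⊕ Fin 1)) = _
    unfold tAdd tOne
    rw [FirstOrder.Language.Term.listEncode]
    have h2 : List.finRange 2 = [0, 1] := by decide
    change _ :: (List.finRange 2).flatMap _ = _
    rw [h2]
    simp [FirstOrder.Language.Term.listEncode]
  unfold numCode
  rw [h]
  rfl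

theorem numCode_primrec : Primrec numCode := by
  obtain ⟨a, b, hab⟩ := numCode_succ
  have h1 : Primrec fun n : ℕ => (Nat.rec (numCode 0)
      (fun _ c => Nat.succ (Nat.pair a (Nat.succ (Nat.pair b c)))) n : ℕ) := by
    apply Primrec.nat_rec₁
    exact (Primrec.succ.comp (Primrec₂.natPair.comp (Primrec.const a)
      (Primrec.succ.comp (Primrec₂.natPair.comp (Primrec.const b) Primrec.snd)))).to₂
  refine h1.of_eq fun n => ?_
  induction n with
  | zero => rfl
  | succ n ih =>
    rw [hab n, ← ih]

theorem godel_sent (Φ : RL.Formula Unit) : ∃ A B C E : ℕ, ∀ n, godelNumber (sent Φ n) =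
    Nat.succ (Nat.pair A (Nat.succ (Nat.pair B (Nat.succ (Nat.pair C
      (Nat.succ (Nat.pair (2 * Nat.pair 1 (numCode n)) E))))))) := by
  refine ⟨encode (Sum.inr (Sum.inr 1) :
        (Σ k, RL.Term (Empty ⊕ Fin k)) ⊕ ((Σ n, RL.Relations n) ⊕ ℕ)),
    encode (Sum.inr (Sum.inr 0) :
        (Σ k, RL.Term (Empty ⊕ Fin k)) ⊕ ((Σ n, RL.Relations n) ⊕ ℕ)),
    encode (Sum.inl ⟨1, .var (Sum.inr (0 : Fin 1))⟩ :
        (Σ k, RL.Term (Empty ⊕ Fin k)) ⊕ ((Σ n, RL.Relations n) ⊕ ℕ)),
    encode (FirstOrder.Language.BoundedFormula.listEncode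
      (FirstOrder.Language.BoundedFormula.relabel (n := 1)
        (fun _ => (Sum.inr (0 : Fin 1) : Empty ⊕ Fin 1)) Φ)), fun n => ?_⟩
  have h : FirstOrder.Language.BoundedFormula.listEncode (sent Φ n) =
      (Sum.inr (Sum.inr 1) :
        (Σ k, RL.Term (Empty ⊕ Fin k)) ⊕ ((Σ n, RL.Relations n) ⊕ ℕ)) ::
      (Sum.inr (Sum.inr 0)) :: (Sum.inl ⟨1, .var (Sum.inr (0 : Fin 1))⟩) ::
      (Sum.inl ⟨1, num n⟩) ::
      FirstOrder.Language.BoundedFormula.listEncode
      (FirstOrder.Language.BoundedFormula.relabel (n := 1)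
        (fun _ => (Sum.inr (0 : Fin 1) : Empty ⊕ Fin 1)) Φ) := by
    rfl
  unfold godelNumber
  rw [h]
  rfl

theorem godel_sent_computable (Φ : RL.Formula Unit) :
    Computable fun n => godelNumber (sent Φ n) := by
  obtain ⟨A, B, C, E, h⟩ := godel_sent Φ
  apply Primrec.to_comp
  have h1 : Primrec fun n : ℕ => Nat.succ (Nat.pair A (Nat.succ (Nat.pair B (Nat.succ (Nat.pair C
      (Nat.succ (Nat.pair (2 * Nat.pair 1 (numCode n)) E))))))) :=
    Primrec.succ.comp (Primrec₂.natPair.comp (Primrec.const A)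
      (Primrec.succ.comp (Primrec₂.natPair.comp (Primrec.const B)
      (Primrec.succ.comp (Primrec₂.natPair.comp (Primrec.const C)
      (Primrec.succ.comp (Primrec₂.natPair.comp
        (Primrec.nat_mul.comp (Primrec.const 2)
          (Primrec₂.natPair.comp (Primrec.const 1) numCode_primrec))
        (Primrec.const E))))))))
  exact h1.of_eq fun n => (h n).symm

/-- the halting set -/
def haltSet (n : ℕ) : Prop := ((Denumerable.ofNat Nat.Partrec.Code n).eval 0).Dom

theorem haltSet_re : REPred haltSet := by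
  have h := ComputablePred.halting_problem_re 0
  exact Partrec.comp h (Computable.ofNat Nat.Partrec.Code)

theorem haltSet_not_computable (f : ℕ → Bool) (hf : Computable f)
    (h : ∀ n, f n = true ↔ haltSet n) : False := by
  refine ComputablePred.halting_problem 0 ?_
  refine ComputablePred.computable_iff.2
    ⟨fun c => f (encode c), hf.comp Computable.encode, ?_⟩
  funext c
  apply propext
  rw [h]
  unfold haltSet
  rw [Denumerable.ofNat_encode]

/-- If the natural numbers are definable in a ring of characteristic zero, its theory is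
undecidable. -/
theorem undecidable_of_definable {R : Type*} [CommRing R] [CharZero R] (ν : RL.Formula (Fin 1))
    (hν : ∀ t : R, ν.Realize (fun _ => t) ↔ ∃ n : ℕ, t = n) : UndecidableTheory R := by
  rintro ⟨f, hf, hdec⟩
  obtain ⟨Φ, hΦ⟩ := dioph_formula ν hν (Pool.Agent.Hhelper80.MRDP.re_dioph haltSet_re)
  refine haltSet_not_computable (fun n => f (godelNumber (sent Φ n)))
    (hf.comp (godel_sent_computable Φ)) fun n => ?_
  rw [hdec, realize_sent, hΦ]

end Pool.Agent.TotReal
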