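import Mathlib

/-!
The language `{+, ·, 0, 1}` of rings, Goedel numbers of its sentences, undecidability of the theory
of a ring, and totally real algebraic numbers.
-/

open FirstOrder

namespace Pool.Agent.TotReal

/-- The function symbols `+`, `·` (binary), `0`, `1` (constants). -/
inductive RFunc : ℕ → Type
  | add : RFunc 2
  | mul : RFunc 2
  | zero : RFunc 0
  | one : RFunc 0

/-- The language `{+, ·, 0, 1}` of rings (no relation symbols besides equality). -/
def RL : FirstOrder.Language.{0, 0} := ⟨RFunc, fun _ => Empty⟩

/-- The four function symbols, numbered `0, 1, 2, 3`. -/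
instance : Encodable (Σ n, RL.Functions n) where
  encode
    | ⟨_, RFunc.add⟩ => 0
    | ⟨_, RFunc.mul⟩ => 1
    | ⟨_, RFunc.zero⟩ => 2
    | ⟨_, RFunc.one⟩ => 3
  decode
    | 0 => some ⟨2, RFunc.add⟩
    | 1 => some ⟨2, RFunc.mul⟩
    | 2 => some ⟨0, RFunc.zero⟩
    | 3 => some ⟨0, RFunc.one⟩
    | _ => none
  encodek := by rintro ⟨_, _ | _ | _ | _⟩ <;> rfl

instance (n : ℕ) : Encodable (RL.Relations n) := inferInstanceAs (Encodable Empty)

/-- The natural interpretation of the symbols `+`, `·`, `0`, `1` in a semiring. -/
instance ringStructure (R : Type*) [Semiring R] : RL.Structure R where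
  funMap
    | RFunc.add, v => v 0 + v 1
    | RFunc.mul, v => v 0 * v 1
    | RFunc.zero, _ => 0
    | RFunc.one, _ => 1
  RelMap := fun r => r.elim

/-- Goedel number of a sentence: the code, in Mathlib's standard coding of lists, of the word of
symbols that Mathlib assigns to the sentence. -/
def godelNumber (φ : RL.Sentence) : ℕ :=
  Encodable.encode (FirstOrder.Language.BoundedFormula.listEncode φ)

/-- The first-order theory of the semiring `R` in the language `{+, ·, 0, 1}` is undecidable: no
computable function decides, given the Goedel number of a sentence, whether the sentence holds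
in `R`. -/
def UndecidableTheory (R : Type*) [Semiring R] : Prop :=
  ¬ ∃ f : ℕ → Bool, Computable f ∧ ∀ φ : RL.Sentence, f (godelNumber φ) = true ↔ R ⊨ φ

/-- An algebraic number `a` is totally real if all its conjugates (the complex roots of its minimal
polynomial over `ℚ`) are real. -/
def IsTotallyReal (a : AlgebraicClosure ℚ) : Prop :=
  ∀ z : ℂ, Polynomial.aeval z (minpoly ℚ a) = 0 → z.im = 0

end Pool.Agent.TotReal
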