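import Pool.Agent.TotReal.Nu
import Pool.Agent.Hhelper80.Depth.MRDP3

/-!
If the natural numbers are definable in a ring of characteristic zero then every recursively
enumerable set of natural numbers is definable there.
-/

open FirstOrder Set

namespace Pool.Agent.TotReal

section num

/-- the numeral of `n` -/
def num {α : Type*} : ℕ → RL.Term α
  | 0 => tZero
  | n + 1 => tAdd tOne (num n)

theorem realize_num {α : Type*} {R : Type*} [CommRing R] (v : α → R) (n : ℕ) :
    (num n : RL.Term α).realize v = n := by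
  induction n with
  | zero => simp [num]
  | succ n ih => simp [num, ih, add_comm]

end num

/-- a term realises to the cast of its value in the natural numbers -/
theorem realize_cast {α : Type*} {R : Type*} [CommRing R] (t : RL.Term α) (m : α → ℕ) :
    t.realize (fun i => (m i : R)) = ((t.realize m : ℕ) : R) := by
  induction t with
  | var i => rfl
  | @func l f ts ih =>
    have e : (fun i => (ts i).realize fun i => (m i : R)) =
        fun i => (((ts i).realize m : ℕ) : R) := funext ih
    cases f with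
    | add =>
      change (ts 0).realize (fun i => (m i : R)) + (ts 1).realize (fun i => (m i : R)) =
        (((ts 0).realize m + (ts 1).realize m : ℕ) : R)
      rw [ih, ih, Nat.cast_add]
    | mul =>
      change (ts 0).realize (fun i => (m i : R)) * (ts 1).realize (fun i => (m i : R)) =
        (((ts 0).realize m * (ts 1).realize m : ℕ) : R)
      rw [ih, ih, Nat.cast_mul]
    | zero =>
      change (0 : R) = ((0 : ℕ) : R)
      simp
    | one =>
      change (1 : R) = ((1 : ℕ) : R)
      simp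

/-- integer polynomials are differences of terms in finitely many variables -/
theorem isPoly_terms {α : Type} {f : (α → ℕ) → ℤ} (hf : IsPoly f) :
    ∃ (ι : Type) (_ : Finite ι) (g : ι → α) (p q : RL.Term ι), ∀ v : α → ℕ,
      f v = ((p.realize (v ∘ g) : ℕ) : ℤ) - ((q.realize (v ∘ g) : ℕ) : ℤ) := by
  induction hf with
  | proj i =>
    refine ⟨Unit, inferInstance, fun _ => i, .var (), tZero, fun v => ?_⟩
    simp
  | const n =>
    refine ⟨Empty, inferInstance, Empty.elim, num n.toNat, num (-n).toNat, fun v => ?_⟩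
    have h : ∀ k : ℕ, (num k : RL.Term Empty).realize (v ∘ Empty.elim) = k := by
      intro k
      induction k with
      | zero => simp [num]
      | succ k ih => simp [num, ih, add_comm]
    rw [h, h]
    change n = _
    omega
  | @sub f₁ f₂ _ _ ih₁ ih₂ =>
    obtain ⟨ι₁, _, g₁, p₁, q₁, h₁⟩ := ih₁
    obtain ⟨ι₂, _, g₂, p₂, q₂, h₂⟩ := ih₂
    refine ⟨ι₁ ⊕ ι₂, inferInstance, Sum.elim g₁ g₂,
      tAdd (p₁.relabel Sum.inl) (q₂.relabel Sum.inr),
      tAdd (q₁.relabel Sum.inl) (p₂.relabel Sum.inr), fun v => ?_⟩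
    simp only [realize_tAdd, FirstOrder.Language.Term.realize_relabel, Function.comp_assoc,
      Sum.elim_comp_inl, Sum.elim_comp_inr, h₁, h₂]
    push_cast
    ring
  | @mul f₁ f₂ _ _ ih₁ ih₂ =>
    obtain ⟨ι₁, _, g₁, p₁, q₁, h₁⟩ := ih₁
    obtain ⟨ι₂, _, g₂, p₂, q₂, h₂⟩ := ih₂
    refine ⟨ι₁ ⊕ ι₂, inferInstance, Sum.elim g₁ g₂,
      tAdd (tMul (p₁.relabel Sum.inl) (p₂.relabel Sum.inr))
        (tMul (q₁.relabel Sum.inl) (q₂.relabel Sum.inr)),
      tAdd (tMul (p₁.relabel Sum.inl) (q₂.relabel Sum.inr))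
        (tMul (q₁.relabel Sum.inl) (p₂.relabel Sum.inr)), fun v => ?_⟩
    simp only [realize_tAdd, realize_tMul, FirstOrder.Language.Term.realize_relabel,
      Function.comp_assoc, Sum.elim_comp_inl, Sum.elim_comp_inr, h₁, h₂]
    push_cast
    ring

theorem dioph_formula {R : Type*} [CommRing R] [CharZero R] (ν : RL.Formula (Fin 1))
    (hν : ∀ t : R, ν.Realize (fun _ => t) ↔ ∃ n : ℕ, t = n) {p : ℕ → Prop}
    (hp : Dioph {v : Unit → ℕ | p (v ())}) :
    ∃ Φ : RL.Formula Unit, ∀ n : ℕ, Φ.Realize (fun _ => (n : R)) ↔ p n := by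
  obtain ⟨β, P, hP⟩ := hp
  obtain ⟨ι, _, g, a, b, hab⟩ := isPoly_terms P.2
  have hN : ∀ i : ι, (∅ : Set R).Definable RL {w : Unit ⊕ ι → R | ∃ n : ℕ, w (Sum.inr i) = n} := by
    intro i
    rw [empty_definable_iff]
    refine ⟨FirstOrder.Language.Formula.relabel (fun _ => Sum.inr i) ν, ?_⟩
    ext w
    simp only [mem_ofPred_eq, FirstOrder.Language.Formula.realize_relabel]
    exact (hν (w (Sum.inr i))).symm
  have hE : ∀ x y : Unit ⊕ ι, (∅ : Set R).Definable RL {w : Unit ⊕ ι → R | w x = w y} := by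
    intro x y
    rw [empty_definable_iff]
    refine ⟨FirstOrder.Language.Term.equal (.var x) (.var y), ?_⟩
    ext w
    simp
  have hT : (∅ : Set R).Definable RL {w : Unit ⊕ ι → R |
      (a.relabel Sum.inr).realize w = (b.relabel Sum.inr).realize w} := by
    rw [empty_definable_iff]
    refine ⟨FirstOrder.Language.Term.equal (a.relabel Sum.inr) (b.relabel Sum.inr), ?_⟩
    ext w
    simp
  have hD : (∅ : Set R).Definable RL {w : Unit ⊕ ι → R |
      (∀ i, ∃ n : ℕ, w (Sum.inr i) = n) ∧ (∀ i : {i : ι // g i = Sum.inl ()},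
        w (Sum.inr i.1) = w (Sum.inl ())) ∧ (∀ ij : {ij : ι × ι // g ij.1 = g ij.2},
        w (Sum.inr ij.1.1) = w (Sum.inr ij.1.2)) ∧
      (a.relabel Sum.inr).realize w = (b.relabel Sum.inr).realize w} := by
    have h1 := definable_iInter_of_finite (fun i => hN i)
    have h2 := definable_iInter_of_finite (fun i : {i : ι // g i = Sum.inl ()} =>
      hE (Sum.inr i.1) (Sum.inl ()))
    have h3 := definable_iInter_of_finite (fun ij : {ij : ι × ι // g ij.1 = g ij.2} =>
      hE (Sum.inr ij.1.1) (Sum.inr ij.1.2))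
    have h4 := h1.inter (h2.inter (h3.inter hT))
    have e : {w : Unit ⊕ ι → R |
        (∀ i, ∃ n : ℕ, w (Sum.inr i) = n) ∧ (∀ i : {i : ι // g i = Sum.inl ()},
          w (Sum.inr i.1) = w (Sum.inl ())) ∧ (∀ ij : {ij : ι × ι // g ij.1 = g ij.2},
          w (Sum.inr ij.1.1) = w (Sum.inr ij.1.2)) ∧
        (a.relabel Sum.inr).realize w = (b.relabel Sum.inr).realize w} =
        (⋂ i, {w : Unit ⊕ ι → R | ∃ n : ℕ, w (Sum.inr i) = n}) ∩
        ((⋂ i : {i : ι // g i = Sum.inl ()}, {w : Unit ⊕ ι → R | w (Sum.inr i.1) = w (Sum.inl ())}) ∩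
        ((⋂ ij : {ij : ι × ι // g ij.1 = g ij.2},
          {w : Unit ⊕ ι → R | w (Sum.inr ij.1.1) = w (Sum.inr ij.1.2)}) ∩
        {w : Unit ⊕ ι → R |
          (a.relabel Sum.inr).realize w = (b.relabel Sum.inr).realize w})) := by
      ext w
      simp only [mem_ofPred_eq, mem_inter_iff, mem_iInter]
    rw [e]
    exact h4
  have hQ := hD.exists_of_finite
  rw [empty_definable_iff] at hQ
  obtain ⟨Φ, hΦ⟩ := hQ
  refine ⟨Φ, fun n => ?_⟩
  have h5 : Φ.Realize (fun _ => (n : R)) ↔ (fun _ : Unit => (n : R)) ∈ Set.ofPred Φ.Realize := Iff.rfl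
  rw [h5, ← hΦ]
  simp only [mem_ofPred_eq, Sum.elim_inl, Sum.elim_inr, FirstOrder.Language.Term.realize_relabel,
    Sum.elim_comp_inr]
  have hPn := hP (fun _ => n)
  simp only [mem_ofPred_eq] at hPn
  rw [hPn]
  constructor
  · rintro ⟨u, h1, h2, h3, h4⟩
    choose m hm using h1
    classical
    let t : β → ℕ := fun b => if h : ∃ i, g i = Sum.inr b then m h.choose else 0
    refine ⟨t, ?_⟩
    have hval : (Sum.elim (fun _ : Unit => n) t) ∘ g = m := by
      funext i
      simp only [Function.comp_apply]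
      rcases hgi : g i with x | b
      · simp only [Sum.elim_inl]
        have := h2 ⟨i, by rw [hgi]⟩
        simp only [hm] at this
        exact_mod_cast this.symm
      · simp only [Sum.elim_inr, t]
        have hex : ∃ i, g i = Sum.inr b := ⟨i, hgi⟩
        rw [dif_pos hex]
        have := h3 ⟨(hex.choose, i), by rw [hex.choose_spec, hgi]⟩
        simp only [hm] at this
        exact_mod_cast this
    have hum : u = fun i => (m i : R) := funext hm
    rw [hum, realize_cast, realize_cast] at h4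
    have h6 : a.realize m = b.realize m := by exact_mod_cast h4
    have h7 := hab (Sum.elim (fun _ : Unit => n) t)
    rw [hval, h6, sub_self] at h7
    exact h7
  · rintro ⟨t, ht⟩
    refine ⟨fun i => ((Sum.elim (fun _ : Unit => n) t (g i) : ℕ) : R), fun i => ⟨_, rfl⟩, ?_, ?_, ?_⟩
    · rintro ⟨i, hi⟩
      simp [hi]
    · rintro ⟨⟨i, j⟩, hij⟩
      simp only at hij ⊢
      rw [hij]
    · rw [realize_cast, realize_cast]
      have h7 := hab (Sum.elim (fun _ : Unit => n) t)
      have h8 : P.1 (Sum.elim (fun _ : Unit => n) t) = 0 := ht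
      rw [h8] at h7
      have h9 : a.realize (Sum.elim (fun _ : Unit => n) t ∘ g) =
          b.realize (Sum.elim (fun _ : Unit => n) t ∘ g) := by omega
      exact congrArg (fun k : ℕ => (k : R)) h9

end Pool.Agent.TotReal
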