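import Pool.Agent.TotReal.Defs

/-!
The arithmetic of the proof: a bounded divisibility condition isolates `{1, ..., n}` inside any ring
of totally real algebraic integers.
-/

open Polynomial

namespace Pool.Agent.TotReal

/-- a nonzero algebraic integer has a conjugate of absolute value at least one -/
theorem exists_conj_ge_one (y : AlgebraicClosure ℚ) (hy : IsIntegral ℤ y) (h0 : y ≠ 0) :
    ∃ σ : AlgebraicClosure ℚ →ₐ[ℚ] ℂ, 1 ≤ ‖σ y‖ := by
  have : Algebra.IsAlgebraic ℚ (AlgebraicClosure ℚ) := AlgebraicClosure.isAlgebraic ℚ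
  by_contra hcon
  push Not at hcon
  have hroots : ∀ z : ℂ, aeval z (minpoly ℚ y) = 0 → ‖z‖ < 1 := by
    intro z hz
    have hz' : z ∈ (minpoly ℚ y).rootSet ℂ := by
      rw [mem_rootSet]
      exact ⟨minpoly.ne_zero (hy.tower_top), hz⟩
    rw [← Algebra.IsAlgebraic.range_eval_eq_rootSet_minpoly (F := ℚ) (K := AlgebraicClosure ℚ) ℂ y]
      at hz'
    obtain ⟨σ, rfl⟩ := hz'
    exact hcon σ
  set p := (minpoly ℤ y).map (algebraMap ℤ ℂ) with hp
  have hmon : p.Monic := (minpoly.monic hy).map _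
  have hspl : p.Splits := IsAlgClosed.splits p
  have hc0 : p.coeff 0 = (-1) ^ p.natDegree * p.roots.prod :=
    hspl.coeff_zero_eq_prod_roots_of_monic hmon
  have hlt : ∀ z ∈ p.roots, ‖z‖ < 1 := by
    intro z hz
    rw [mem_roots hmon.ne_zero] at hz
    apply hroots
    rw [minpoly.isIntegrallyClosed_eq_field_fractions' ℚ hy]
    rw [hp, IsRoot.def, eval_map_algebraMap] at hz
    rw [aeval_map_algebraMap]
    exact hz
  have hdeg : 0 < p.natDegree := by
    rw [hp, (minpoly.monic hy).natDegree_map]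
    exact minpoly.natDegree_pos hy
  have hcard : p.roots.card = p.natDegree := (hspl.natDegree_eq_card_roots).symm
  have hprod : ‖p.roots.prod‖ < 1 := by
    have hne : p.roots ≠ 0 := by
      intro h
      rw [h, Multiset.card_zero] at hcard
      omega
    have key : ∀ s : Multiset ℂ, s ≠ 0 → (∀ z ∈ s, ‖z‖ < 1) → ‖s.prod‖ < 1 := by
      intro s
      induction s using Multiset.induction_on with
      | empty => intro h; exact absurd rfl h
      | cons a s ih =>
        intro _ h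
        rw [Multiset.prod_cons, norm_mul]
        by_cases hs : s = 0
        · subst hs
          simpa using h a (by simp)
        · have h1 := ih hs (fun z hz => h z (Multiset.mem_cons_of_mem hz))
          have h2 := h a (Multiset.mem_cons_self a s)
          exact mul_lt_one_of_nonneg_of_lt_one_left (norm_nonneg _) h2 h1.le
    exact key _ hne hlt
  have hc1 : ‖p.coeff 0‖ < 1 := by
    rw [hc0, norm_mul, norm_pow, norm_neg, norm_one, one_pow, one_mul]
    exact hprod
  rw [hp, coeff_map] at hc1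
  have hz : (minpoly ℤ y).coeff 0 ≠ 0 := by
    intro h
    have h5 := minpoly.coeff_zero_ne_zero (A := ℚ) (hy.tower_top) h0
    rw [minpoly.isIntegrallyClosed_eq_field_fractions' ℚ hy, coeff_map, h] at h5
    simp at h5
  have h3 : ‖((minpoly ℤ y).coeff 0 : ℂ)‖ < 1 := by simpa using hc1
  rw [Complex.norm_intCast] at h3
  have h4 : |(minpoly ℤ y).coeff 0| < 1 := by exact_mod_cast h3
  rw [Int.abs_lt_one_iff] at h4
  exact hz h4

/-- the bounded divisibility condition -/
def D {R : Type*} [CommRing R] (N b e x : R) : Prop :=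
  (∃ a₁ a₂ a₃ a₄ : R, x * x + (a₁ * a₁ + (a₂ * a₂ + (a₃ * a₃ + a₄ * a₄))) = N) ∧
    ∃ y : R, (b + x) * y = e

section

variable {R : Type*} [CommRing R] (ι : R →+* AlgebraicClosure ℚ)

theorem abs_le_of_D (hreal : ∀ a, IsTotallyReal (ι a)) {N b e x : R} (h : D N b e x)
    (σ : AlgebraicClosure ℚ →ₐ[ℚ] ℂ) :
    (σ (ι x)).im = 0 ∧ (σ (ι x)).re ^ 2 ≤ (σ (ι N)).re := by
  have him : ∀ a : R, (σ (ι a)).im = 0 := by
    intro a
    apply hreal a
    have h1 : aeval (σ (ι a)) (minpoly ℚ (ι a)) = 0 := by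
      rw [Polynomial.aeval_algHom_apply, minpoly.aeval, map_zero]
    exact h1
  obtain ⟨⟨a₁, a₂, a₃, a₄, hN⟩, -⟩ := h
  refine ⟨him x, ?_⟩
  have h2 := congrArg (fun r => (σ (ι r)).re) hN
  simp only [map_add, map_mul, Complex.add_re, Complex.mul_re, him] at h2
  nlinarith [sq_nonneg (σ (ι a₁)).re, sq_nonneg (σ (ι a₂)).re, sq_nonneg (σ (ι a₃)).re,
    sq_nonneg (σ (ι a₄)).re]

theorem D_eq (hι : Function.Injective ι) (hint : ∀ a, IsIntegral ℤ (ι a))
    (hreal : ∀ a, IsTotallyReal (ι a)) (n : ℕ) (x : R)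
    (h : D ((n : R) * n) ((n + (2 * n) ^ n + 1 : ℕ) : R)
      (∏ i ∈ Finset.Icc 1 n, (((n + (2 * n) ^ n + 1 : ℕ) : R) + (i : R))) x) :
    ∃ i ∈ Finset.Icc 1 n, x = (i : R) := by
  by_contra hcon
  push Not at hcon
  set B : ℕ := n + (2 * n) ^ n + 1 with hB
  have hdom : IsDomain R := hι.isDomain ι
  have hpi : (∏ i ∈ Finset.Icc 1 n, ((i : R) - x)) ≠ 0 := by
    rw [Finset.prod_ne_zero_iff]
    intro i hi h0
    exact hcon i hi (sub_eq_zero.1 h0).symm
  have hdvd : ((B : R) + x) ∣ ∏ i ∈ Finset.Icc 1 n, ((i : R) - x) := by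
    have h1 : ((B : R) + x) ∣ ∏ i ∈ Finset.Icc 1 n, ((B : R) + (i : R)) := by
      obtain ⟨-, y, hy⟩ := h
      exact ⟨y, hy.symm⟩
    have h2 := Polynomial.sub_dvd_eval_sub (B : R) (-x)
      (∏ i ∈ Finset.Icc 1 n, (X + C (i : R)))
    simp only [eval_prod, eval_add, eval_X, eval_C, sub_neg_eq_add] at h2
    have h3 := (dvd_sub_right h1).1 h2
    refine h3.trans (dvd_of_eq ?_)
    refine Finset.prod_congr rfl fun i _ => ?_
    ring
  obtain ⟨z, hz⟩ := hdvd
  have hz0 : z ≠ 0 := by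
    rintro rfl
    rw [mul_zero] at hz
    exact hpi hz
  have hιz : ι z ≠ 0 := fun h0 => hz0 (hι (by rw [h0, map_zero]))
  obtain ⟨σ, hσ⟩ := exists_conj_ge_one (ι z) (hint z) hιz
  obtain ⟨him, hre⟩ := abs_le_of_D ι hreal h σ
  set w := σ (ι x) with hw
  have hre' : w.re ^ 2 ≤ (n : ℝ) ^ 2 := by
    have : (σ (ι ((n : R) * n))).re = (n : ℝ) ^ 2 := by
      simp [sq]
    rw [this] at hre
    exact hre
  have habs : |w.re| ≤ n := abs_le_of_sq_le_sq hre' (Nat.cast_nonneg n)
  have hwn : ‖w‖ ≤ n := by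
    have : ‖w‖ = |w.re| := by
      rw [← Complex.re_add_im w, him]
      simp
    rw [this]; exact habs
  have h5 : ‖σ (ι (∏ i ∈ Finset.Icc 1 n, ((i : R) - x)))‖ ≤ (2 * n : ℝ) ^ n := by
    rw [map_prod, map_prod, norm_prod]
    calc ∏ i ∈ Finset.Icc 1 n, ‖σ (ι ((i : R) - x))‖
        ≤ ∏ _i ∈ Finset.Icc 1 n, (2 * n : ℝ) := by
          apply Finset.prod_le_prod
          · intro i _; exact norm_nonneg _
          · intro i hi
            rw [Finset.mem_Icc] at hi
            rw [map_sub, map_sub, map_natCast, map_natCast, ← hw]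
            calc ‖(i : ℂ) - w‖ ≤ ‖(i : ℂ)‖ + ‖w‖ := norm_sub_le _ _
              _ ≤ n + n := by
                  have : (i : ℝ) ≤ n := by exact_mod_cast hi.2
                  rw [Complex.norm_natCast]
                  linarith
              _ = 2 * n := by ring
      _ = (2 * n : ℝ) ^ n := by simp
  have h6 : (2 * n : ℝ) ^ n + 1 ≤ ‖σ (ι ((B : R) + x))‖ := by
    rw [map_add, map_add, map_natCast, map_natCast, ← hw]
    have h7 : ‖(B : ℂ)‖ ≤ ‖(B : ℂ) + w‖ + ‖w‖ := by
      have := norm_sub_le ((B : ℂ) + w) w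
      simpa using this
    rw [Complex.norm_natCast] at h7
    have h8 : (B : ℝ) = n + (2 * n) ^ n + 1 := by rw [hB]; push_cast; ring
    rw [h8] at h7
    linarith
  have h9 := congrArg (fun r => ‖σ (ι r)‖) hz
  simp only [map_mul, norm_mul] at h9
  rw [h9] at h5
  have h10 : ‖σ (ι ((B : R) + x))‖ * 1 ≤ ‖σ (ι ((B : R) + x))‖ * ‖σ (ι z)‖ :=
    mul_le_mul_of_nonneg_left hσ (norm_nonneg _)
  linarith

/-- every natural number satisfies the defining condition -/
theorem exists_D (hι : Function.Injective ι) (hint : ∀ a, IsIntegral ℤ (ι a))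
    (hreal : ∀ a, IsTotallyReal (ι a)) (n : ℕ) :
    ∃ N b e : R, D N b e 1 ∧ ∀ x : R, D N b e x → x = (n : R) + 1 ∨ D N b e (x + 1) := by
  set m := n + 1 with hm
  refine ⟨(m : R) * m, ((m + (2 * m) ^ m + 1 : ℕ) : R),
    ∏ i ∈ Finset.Icc 1 m, (((m + (2 * m) ^ m + 1 : ℕ) : R) + (i : R)), ?_⟩
  have hmem : ∀ i ∈ Finset.Icc 1 m, D ((m : R) * m) ((m + (2 * m) ^ m + 1 : ℕ) : R)
      (∏ i ∈ Finset.Icc 1 m, (((m + (2 * m) ^ m + 1 : ℕ) : R) + (i : R))) (i : R) := by
    intro i hi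
    refine ⟨?_, ?_⟩
    · have him : i * i ≤ m * m := Nat.mul_self_le_mul_self (Finset.mem_Icc.1 hi).2
      obtain ⟨a, b, c, d, habcd⟩ := Nat.sum_four_squares (m * m - i * i)
      refine ⟨a, b, c, d, ?_⟩
      have h1 : i * i + (a * a + (b * b + (c * c + d * d))) = m * m := by
        have : a ^ 2 + b ^ 2 + c ^ 2 + d ^ 2 = m * m - i * i := habcd
        have h2 : i * i + (a ^ 2 + b ^ 2 + c ^ 2 + d ^ 2) = m * m := by omega
        rw [← h2]; ring
      exact_mod_cast congrArg (fun k : ℕ => (k : R)) h1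
    · obtain ⟨y, hy⟩ := Finset.dvd_prod_of_mem
        (fun i : ℕ => (((m + (2 * m) ^ m + 1 : ℕ) : R) + (i : R))) hi
      exact ⟨y, hy.symm⟩
  refine ⟨by simpa using hmem 1 (Finset.mem_Icc.2 ⟨le_rfl, by omega⟩), ?_⟩
  intro x hx
  obtain ⟨i, hi, rfl⟩ := D_eq ι hι hint hreal m x hx
  by_cases him : i = m
  · left
    rw [him, hm]; push_cast; ring
  · right
    rw [Finset.mem_Icc] at hi
    have := hmem (i + 1) (Finset.mem_Icc.2 ⟨by omega, by omega⟩)
    simpa using this

/-- conversely the condition defines natural numbers only -/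
theorem nat_of_D (hreal : ∀ a, IsTotallyReal (ι a)) (t : R)
    (h : ∃ N b e : R, D N b e 1 ∧ ∀ x : R, D N b e x → x = t + 1 ∨ D N b e (x + 1)) :
    ∃ n : ℕ, t = n := by
  obtain ⟨N, b, e, h1, hstep⟩ := h
  by_contra hcon
  push Not at hcon
  have hall : ∀ k : ℕ, D N b e ((k : R) + 1) := by
    intro k
    induction k with
    | zero => simpa using h1
    | succ k ih =>
      rcases hstep _ ih with h2 | h2
      · exact absurd (add_right_cancel h2).symm (hcon k)
      · push_cast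
        exact h2
  have : Algebra.IsAlgebraic ℚ (AlgebraicClosure ℚ) := AlgebraicClosure.isAlgebraic ℚ
  obtain ⟨σ⟩ : Nonempty (AlgebraicClosure ℚ →ₐ[ℚ] ℂ) := ⟨IsAlgClosed.lift⟩
  obtain ⟨k, hk⟩ := exists_nat_gt (σ (ι N)).re
  have h3 := (abs_le_of_D ι hreal (hall k) σ).2
  have h4 : (σ (ι ((k : R) + 1))).re = (k : ℝ) + 1 := by simp
  rw [h4] at h3
  have : (0 : ℝ) ≤ k := Nat.cast_nonneg k
  nlinarith

end

end Pool.Agent.TotReal
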