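import Pool.Agent.TotReal.Key

/-!
The formula that defines the natural numbers.
-/

open FirstOrder

namespace Pool.Agent.TotReal

section terms

variable {α : Type*}

/-- sum of two terms -/
def tAdd (s t : RL.Term α) : RL.Term α :=
  FirstOrder.Language.Term.func (L := RL) (l := 2) RFunc.add ![s, t]

/-- product of two terms -/
def tMul (s t : RL.Term α) : RL.Term α :=
  FirstOrder.Language.Term.func (L := RL) (l := 2) RFunc.mul ![s, t]

/-- the constant one -/
def tOne : RL.Term α := FirstOrder.Language.Term.func (L := RL) (l := 0) RFunc.one ![]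

/-- the constant zero -/
def tZero : RL.Term α := FirstOrder.Language.Term.func (L := RL) (l := 0) RFunc.zero ![]

variable {R : Type*} [Semiring R] (v : α → R)

@[simp] theorem realize_tAdd (s t : RL.Term α) :
    (tAdd s t).realize v = s.realize v + t.realize v := by
  change s.realize v + t.realize v = _
  rfl

@[simp] theorem realize_tMul (s t : RL.Term α) :
    (tMul s t).realize v = s.realize v * t.realize v := by
  change s.realize v * t.realize v = _
  rfl

@[simp] theorem realize_tOne : (tOne : RL.Term α).realize v = 1 := rfl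

@[simp] theorem realize_tZero : (tZero : RL.Term α).realize v = 0 := rfl

end terms

/-- variable of the left block -/
abbrev vl {m k : ℕ} (i : Fin m) : RL.Term (Fin m ⊕ Fin k) :=
  FirstOrder.Language.Term.var (Sum.inl i)

/-- variable of the right block -/
abbrev vr {m k : ℕ} (i : Fin k) : RL.Term (Fin m ⊕ Fin k) :=
  FirstOrder.Language.Term.var (Sum.inr i)

/-- the bounded divisibility condition as a formula; variables `N, b, e, x` -/
noncomputable def formD : RL.Formula (Fin 4) :=
  FirstOrder.Language.Formula.iExs (Fin 5)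
    ((FirstOrder.Language.Term.equal
      (tAdd (tMul (vl 3) (vl 3)) (tAdd (tMul (vr 0) (vr 0)) (tAdd (tMul (vr 1) (vr 1))
        (tAdd (tMul (vr 2) (vr 2)) (tMul (vr 3) (vr 3)))))) (vl 0)) ⊓
    (FirstOrder.Language.Term.equal (tMul (tAdd (vl 1) (vl 3)) (vr 4)) (vl 2)))

theorem realize_formD {R : Type*} [CommRing R] (v : Fin 4 → R) :
    formD.Realize v ↔ D (v 0) (v 1) (v 2) (v 3) := by
  unfold formD D
  rw [FirstOrder.Language.Formula.realize_iExs]
  simp only [FirstOrder.Language.Formula.realize_inf, FirstOrder.Language.Formula.realize_equal,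
    realize_tAdd, realize_tMul, FirstOrder.Language.Term.realize_var, Sum.elim_inl, Sum.elim_inr]
  constructor
  · rintro ⟨u, h1, h2⟩
    exact ⟨⟨u 0, u 1, u 2, u 3, h1⟩, u 4, h2⟩
  · rintro ⟨⟨a, b, c, d, h1⟩, y, h2⟩
    exact ⟨![a, b, c, d, y], h1, h2⟩

/-- The formula `ν(t)`: there are `N, b, e` with `D(1)` and such that `D(x)` implies `x = t + 1` or
`D(x + 1)`. -/
noncomputable def nu : RL.Formula (Fin 1) :=
  FirstOrder.Language.Formula.iExs (Fin 3)
    ((FirstOrder.Language.BoundedFormula.subst formD ![vr 0, vr 1, vr 2, tOne] :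
        RL.Formula (Fin 1 ⊕ Fin 3)) ⊓
      FirstOrder.Language.Formula.iAlls (Fin 1)
        ((FirstOrder.Language.BoundedFormula.subst formD
            ![.var (.inl (.inr 0)), .var (.inl (.inr 1)), .var (.inl (.inr 2)), .var (.inr 0)] :
            RL.Formula ((Fin 1 ⊕ Fin 3) ⊕ Fin 1)).imp
          (((FirstOrder.Language.Term.var (.inr 0) : RL.Term ((Fin 1 ⊕ Fin 3) ⊕ Fin 1)).equal
              (tAdd (.var (.inl (.inl 0))) tOne)) ⊔
            (FirstOrder.Language.BoundedFormula.subst formD
              ![.var (.inl (.inr 0)), .var (.inl (.inr 1)), .var (.inl (.inr 2)),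
                tAdd (.var (.inr 0)) tOne] : RL.Formula ((Fin 1 ⊕ Fin 3) ⊕ Fin 1)))))

theorem realize_subst_formD {R : Type*} [CommRing R] {α : Type*} (f : Fin 4 → RL.Term α)
    (v : α → R) :
    FirstOrder.Language.Formula.Realize
      (FirstOrder.Language.BoundedFormula.subst formD f : RL.Formula α) v ↔
      D ((f 0).realize v) ((f 1).realize v) ((f 2).realize v) ((f 3).realize v) := by
  rw [← realize_formD (fun a => (f a).realize v)]
  exact FirstOrder.Language.BoundedFormula.realize_subst

theorem realize_nu {R : Type*} [CommRing R] (t : R) :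
    nu.Realize (fun _ => t) ↔
      ∃ N b e : R, D N b e 1 ∧ ∀ x : R, D N b e x → x = t + 1 ∨ D N b e (x + 1) := by
  unfold nu
  rw [FirstOrder.Language.Formula.realize_iExs]
  simp only [FirstOrder.Language.Formula.realize_inf, FirstOrder.Language.Formula.realize_iAlls,
    FirstOrder.Language.Formula.realize_imp, FirstOrder.Language.Formula.realize_sup,
    FirstOrder.Language.Formula.realize_equal, realize_subst_formD,
    realize_tAdd, realize_tOne]
  constructor
  · rintro ⟨u, h1, h2⟩
    exact ⟨u 0, u 1, u 2, h1, fun x hx => h2 (fun _ => x) hx⟩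
  · rintro ⟨N, b, e, h1, h2⟩
    exact ⟨![N, b, e], h1, fun x hx => h2 (x 0) hx⟩

theorem nu_defines_nat {R : Type*} [CommRing R] (ι : R →+* AlgebraicClosure ℚ)
    (hι : Function.Injective ι) (hint : ∀ a, IsIntegral ℤ (ι a))
    (hreal : ∀ a, IsTotallyReal (ι a)) (t : R) :
    nu.Realize (fun _ => t) ↔ ∃ n : ℕ, t = n := by
  rw [realize_nu]
  constructor
  · exact nat_of_D ι hreal t
  · rintro ⟨n, rfl⟩
    exact exists_D ι hι hint hreal n

end Pool.Agent.TotReal
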